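import Pool.Agent.L7h27.EX.Stm
import Pool.Agent.L7h37.WA.Core

/-!
# Project EX of helper27: COREX, the Davenport-Heilbronn method with the Gaussian kernel for a
continuous function
-/

set_option autoImplicit false

namespace Pool.Agent.L7h37.EX

open Finset MeasureTheory Filter
open Pool.Agent.Helper602.MK (ee)
open Pool.Agent.Helper602.MK.N_J5b (norm_ee ee_add ee_conj ee_zero)
open Pool.Agent.L7h67.WA (gs)
open Pool.Agent.L7h37.WA (gw gw_nonneg continuous_ee continuous_gw integrable_gw integral_gw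
  integrable_bdd integrable_gw_ee SX cont_SX norm_SX sq_SX int_sq int_sq' gs_le)
open Pool.Agent.L7h27.EX

theorem cont_WSg (φ : ℝ → ℝ) (a P : ℕ) : Continuous (WSg φ a P) := by
  unfold WSg
  exact continuous_finsetSum _ fun z _ => continuous_ee.comp (by fun_prop)

theorem cont_WIg {φ : ℝ → ℝ} (hφ : Continuous φ) (a P : ℕ) : Continuous (WIg φ a P) := by
  unfold WIg
  apply intervalIntegral.continuous_parametric_intervalIntegral_of_continuous'
  exact continuous_ee.comp (by fun_prop)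

theorem norm_WSg (φ : ℝ → ℝ) (a P : ℕ) (β : ℝ) : ‖WSg φ a P β‖ ≤ 3 * ((a : ℝ) * P) := by
  unfold WSg
  refine (norm_sum_le _ _).trans ?_
  simp only [norm_ee, sum_const, Nat.card_Ioc, nsmul_eq_mul, mul_one]
  rw [Nat.cast_sub (by omega)]
  push_cast
  linarith

theorem norm_WIg (φ : ℝ → ℝ) (a P : ℕ) (β : ℝ) : ‖WIg φ a P β‖ ≤ 3 * ((a : ℝ) * P) := by
  unfold WIg
  refine (intervalIntegral.norm_integral_le_of_norm_le_const (C := 1) fun u _ => by
    rw [norm_ee]).trans ?_
  have h0 : (0 : ℝ) ≤ (a : ℝ) * P := by positivity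
  push_cast
  rw [one_mul, abs_of_nonneg (by linarith)]
  linarith

theorem gs_eq_sum {w : ℝ} (hw : 0 < w) (φ : ℝ → ℝ) (a P : ℕ) (τ : ℝ) :
    ∫ β : ℝ, (gw w β : ℂ) * (WSg φ a P β * ee (-(β * τ))) = (GSg φ a P w τ : ℂ) := by
  have h1 : ∀ β : ℝ, (gw w β : ℂ) * (WSg φ a P β * ee (-(β * τ))) =
      ∑ z ∈ Ioc (a * P) (4 * (a * P)), (gw w β : ℂ) * ee (β * (φ (z : ℝ) - τ)) := by
    intro β
    unfold WSg
    rw [sum_mul, mul_sum]
    refine sum_congr rfl fun z _ => ?_
    rw [← ee_add]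
    congr 2
    ring
  simp_rw [h1]
  rw [integral_finsetSum _ fun z _ => integrable_gw_ee hw _]
  unfold GSg
  push_cast
  exact sum_congr rfl fun z _ => integral_gw hw _

theorem gi_eq_int {w : ℝ} (hw : 0 < w) {φ : ℝ → ℝ} (hφ : Continuous φ) (a P : ℕ) (τ : ℝ) :
    ∫ β : ℝ, (gw w β : ℂ) * (WIg φ a P β * ee (-(β * τ))) = (GIg φ a P w τ : ℂ) := by
  have h1 : ∀ β : ℝ, (gw w β : ℂ) * (WIg φ a P β * ee (-(β * τ))) =
      ∫ u in (((a * P : ℕ) : ℝ))..(((4 * (a * P) : ℕ) : ℝ)),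
        (gw w β : ℂ) * ee (β * (φ u - τ)) := by
    intro β
    unfold WIg
    rw [← intervalIntegral.integral_mul_const, ← intervalIntegral.integral_const_mul]
    congr 1
    funext u
    rw [← ee_add]
    congr 2
    ring
  simp_rw [h1]
  have hswap := intervalIntegral_integral_swap (μ := (volume : Measure ℝ))
    (a := ((a * P : ℕ) : ℝ)) (b := ((4 * (a * P) : ℕ) : ℝ))
    (f := fun (u : ℝ) (β : ℝ) => (gw w β : ℂ) * ee (β * (φ u - τ))) ?_
  · rw [← hswap]
    unfold GIg
    rw [← intervalIntegral.integral_ofReal]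
    congr 1
    funext u
    exact integral_gw hw _
  · have hi : Integrable (fun z : ℝ × ℝ => (1 : ℝ) * gw w z.2)
        ((volume.restrict (Set.uIoc ((a * P : ℕ) : ℝ) ((4 * (a * P) : ℕ) : ℝ))).prod volume) :=
      Integrable.mul_prod (f := fun _ : ℝ => (1 : ℝ)) (by
        rw [integrable_const_iff]
        right
        constructor
        rw [Measure.restrict_apply_univ, Set.uIoc, Real.volume_Ioc]
        exact ENNReal.ofReal_lt_top) (integrable_gw hw)
    refine Integrable.mono' hi ?_ ?_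
    · have : Continuous (Function.uncurry fun (u : ℝ) (β : ℝ) =>
          (gw w β : ℂ) * ee (β * (φ u - τ))) := by
        refine (Complex.continuous_ofReal.comp ((continuous_gw w).comp continuous_snd)).mul ?_
        exact continuous_ee.comp (by fun_prop)
      exact this.aestronglyMeasurable
    · refine ae_of_all _ fun z => ?_
      simp only [Function.uncurry]
      rw [norm_mul, norm_ee, Complex.norm_real, Real.norm_of_nonneg (gw_nonneg hw _)]
      linarith

theorem s_COREX : S_COREX := by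
  intro α γ XA XB GA GB φ a P w B η MA MB τ hφ hw hw1 hB hη hmaj hMA hMB
  rcases XA.eq_empty_or_nonempty with rfl | hneA
  · simp only [sum_empty, abs_zero]
    positivity
  rcases XB.eq_empty_or_nonempty with rfl | hneB
  · simp only [sum_empty, sum_const_zero, abs_zero]
    positivity
  have hA1 : 1 ≤ MA := by
    obtain ⟨x, hx⟩ := hneA
    have h1 : gs 1 (GA x - GA x) ≤ ∑ x' ∈ XA, gs 1 (GA x - GA x') :=
      single_le_sum (f := fun x' => gs 1 (GA x - GA x')) (fun _ _ => (Real.exp_pos _).le) hx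
    have h2 : ∑ x' ∈ XA, gs 1 (GA x - GA x') ≤ ∑ x ∈ XA, ∑ x' ∈ XA, gs 1 (GA x - GA x') :=
      single_le_sum (f := fun x => ∑ x' ∈ XA, gs 1 (GA x - GA x'))
        (fun _ _ => sum_nonneg fun _ _ => (Real.exp_pos _).le) hx
    have h3 : gs 1 (GA x - GA x) = 1 := by unfold gs; simp
    linarith
  have hB1 : 1 ≤ MB := by
    obtain ⟨x, hx⟩ := hneB
    have h1 : gs 1 (GB x - GB x) ≤ ∑ x' ∈ XB, gs 1 (GB x - GB x') :=
      single_le_sum (f := fun x' => gs 1 (GB x - GB x')) (fun _ _ => (Real.exp_pos _).le) hx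
    have h2 : ∑ x' ∈ XB, gs 1 (GB x - GB x') ≤ ∑ x ∈ XB, ∑ x' ∈ XB, gs 1 (GB x - GB x') :=
      single_le_sum (f := fun x => ∑ x' ∈ XB, gs 1 (GB x - GB x'))
        (fun _ _ => sum_nonneg fun _ _ => (Real.exp_pos _).le) hx
    have h3 : gs 1 (GB x - GB x) = 1 := by unfold gs; simp
    linarith
  have hIA : ∫ β : ℝ, gw w β * ‖SX XA GA β‖ ^ 2 ≤ MA := by
    rw [int_sq XA GA hw]
    refine le_trans ?_ hMA
    exact sum_le_sum fun x _ => sum_le_sum fun x' _ => gs_le hw hw1 _
  have hIB : ∫ β : ℝ, gw w β * ‖SX XB GB β‖ ^ 2 ≤ MB := by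
    rw [int_sq XB GB hw]
    refine le_trans ?_ hMB
    exact sum_le_sum fun x _ => sum_le_sum fun x' _ => gs_le hw hw1 _
  set lam : ℝ := Real.sqrt MB / Real.sqrt MA with hlam
  have hsA : 0 < Real.sqrt MA := Real.sqrt_pos.2 (by linarith)
  have hsB : 0 < Real.sqrt MB := Real.sqrt_pos.2 (by linarith)
  have hlam0 : 0 < lam := div_pos hsB hsA
  -- the identity
  have hid : ((∑ x ∈ XA, ∑ y ∈ XB, (GSg φ a P w (τ - GA x - GB y) -
      GIg φ a P w (τ - GA x - GB y)) : ℝ) : ℂ) =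
      ∫ β : ℝ, (gw w β : ℂ) * ((WSg φ a P β - WIg φ a P β) *
        (SX XA GA β * SX XB GB β * ee (-(β * τ)))) := by
    have h1 : ∀ τ' : ℝ, ((GSg φ a P w τ' - GIg φ a P w τ' : ℝ) : ℂ) =
        ∫ β : ℝ, (gw w β : ℂ) * ((WSg φ a P β - WIg φ a P β) * ee (-(β * τ'))) := by
      intro τ'
      rw [Complex.ofReal_sub, ← gs_eq_sum hw, ← gi_eq_int hw hφ, ← integral_sub]
      · congr 1
        funext β
        ring
      · refine integrable_bdd hw _ ((cont_WSg φ a P).mul (continuous_ee.comp (by fun_prop)))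
          (3 * ((a : ℝ) * P)) fun β => ?_
        rw [norm_mul, norm_ee, mul_one]
        exact norm_WSg φ a P β
      · refine integrable_bdd hw _ ((cont_WIg hφ a P).mul (continuous_ee.comp (by fun_prop)))
          (3 * ((a : ℝ) * P)) fun β => ?_
        rw [norm_mul, norm_ee, mul_one]
        exact norm_WIg φ a P β
    have hint : ∀ τ' : ℝ, Integrable (fun β : ℝ =>
        (gw w β : ℂ) * ((WSg φ a P β - WIg φ a P β) * ee (-(β * τ')))) := by
      intro τ'
      refine integrable_bdd hw _ (((cont_WSg φ a P).sub (cont_WIg hφ a P)).mul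
        (continuous_ee.comp (by fun_prop))) (3 * ((a : ℝ) * P) + 3 * ((a : ℝ) * P)) fun β => ?_
      rw [norm_mul, norm_ee, mul_one]
      exact (norm_sub_le _ _).trans (add_le_add (norm_WSg φ a P β) (norm_WIg φ a P β))
    rw [Complex.ofReal_sum]
    simp_rw [Complex.ofReal_sum, h1]
    rw [show (∑ x ∈ XA, ∑ y ∈ XB, ∫ β : ℝ, (gw w β : ℂ) * ((WSg φ a P β - WIg φ a P β) *
        ee (-(β * (τ - GA x - GB y))))) = ∫ β : ℝ, ∑ x ∈ XA, ∑ y ∈ XB, (gw w β : ℂ) *
        ((WSg φ a P β - WIg φ a P β) * ee (-(β * (τ - GA x - GB y)))) by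
      rw [integral_finsetSum _ fun x _ => integrable_finsetSum _ fun y _ => hint _]
      refine sum_congr rfl fun x _ => ?_
      rw [integral_finsetSum _ fun y _ => hint _]]
    congr 1
    funext β
    unfold SX
    rw [sum_mul_sum, sum_mul, mul_sum, mul_sum]
    refine sum_congr rfl fun x _ => ?_
    rw [sum_mul, mul_sum, mul_sum]
    refine sum_congr rfl fun y _ => ?_
    rw [← ee_add, ← ee_add]
    congr 3
    ring
  -- the bound of the integrand
  set E0 : ℝ := Real.exp (-(Real.pi * w ^ 2 * B ^ 2 / 2)) with hE0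
  set K : ℝ := (#XA : ℝ) * #XB * (6 * ((a : ℝ) * P)) * E0 with hK
  have hK0 : 0 ≤ K := by positivity
  have hexp_int : Integrable (fun β : ℝ => w * Real.exp (-(Real.pi * w ^ 2 / 2) * β ^ 2)) :=
    (integrable_exp_neg_mul_sq (b := Real.pi * w ^ 2 / 2) (by positivity)).const_mul w
  have hbound : ∀ β : ℝ, ‖(gw w β : ℂ) * ((WSg φ a P β - WIg φ a P β) *
        (SX XA GA β * SX XB GB β * ee (-(β * τ))))‖ ≤
      (η * (lam / 2) * (gw w β * ‖SX XA GA β‖ ^ 2) +
        η * (1 / (2 * lam)) * (gw w β * ‖SX XB GB β‖ ^ 2)) +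
        K * (w * Real.exp (-(Real.pi * w ^ 2 / 2) * β ^ 2)) := by
    intro β
    have hg := gw_nonneg hw β
    rw [norm_mul, norm_mul, norm_mul, norm_mul, norm_ee, mul_one, Complex.norm_real,
      Real.norm_of_nonneg hg]
    have hab : ‖SX XA GA β‖ * ‖SX XB GB β‖ ≤
        lam / 2 * ‖SX XA GA β‖ ^ 2 + 1 / (2 * lam) * ‖SX XB GB β‖ ^ 2 := by
      have h1 : 0 ≤ (lam * ‖SX XA GA β‖ - ‖SX XB GB β‖) ^ 2 := sq_nonneg _
      have h2 : lam / 2 * ‖SX XA GA β‖ ^ 2 + 1 / (2 * lam) * ‖SX XB GB β‖ ^ 2 -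
          ‖SX XA GA β‖ * ‖SX XB GB β‖ =
          (lam * ‖SX XA GA β‖ - ‖SX XB GB β‖) ^ 2 / (2 * lam) := by
        field_simp
        ring
      have h3 : 0 ≤ (lam * ‖SX XA GA β‖ - ‖SX XB GB β‖) ^ 2 / (2 * lam) := by positivity
      linarith
    rcases le_or_gt |β| B with h | h
    · have h1 := hmaj β h
      have h2 : gw w β * (‖WSg φ a P β - WIg φ a P β‖ * (‖SX XA GA β‖ * ‖SX XB GB β‖)) ≤
          gw w β * (η * (lam / 2 * ‖SX XA GA β‖ ^ 2 + 1 / (2 * lam) * ‖SX XB GB β‖ ^ 2)) := by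
        refine mul_le_mul_of_nonneg_left (mul_le_mul h1 hab (by positivity) hη) hg
      have h3 : 0 ≤ K * (w * Real.exp (-(Real.pi * w ^ 2 / 2) * β ^ 2)) := by positivity
      linarith
    · have h1 : ‖WSg φ a P β - WIg φ a P β‖ ≤ 6 * ((a : ℝ) * P) := by
        have := (norm_sub_le (WSg φ a P β) (WIg φ a P β)).trans
          (add_le_add (norm_WSg φ a P β) (norm_WIg φ a P β))
        linarith
      have h2 : ‖SX XA GA β‖ * ‖SX XB GB β‖ ≤ (#XA : ℝ) * #XB :=
        mul_le_mul (norm_SX XA GA β) (norm_SX XB GB β) (norm_nonneg _) (by positivity)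
      have h3 : gw w β ≤ E0 * (w * Real.exp (-(Real.pi * w ^ 2 / 2) * β ^ 2)) := by
        have h4 : Real.exp (-(Real.pi * w ^ 2) * β ^ 2) ≤
            E0 * Real.exp (-(Real.pi * w ^ 2 / 2) * β ^ 2) := by
          rw [hE0, ← Real.exp_add]
          apply Real.exp_le_exp.2
          have h5 : B ^ 2 ≤ β ^ 2 := by
            rw [← sq_abs β]
            exact pow_le_pow_left₀ hB h.le 2
          have h6 : 0 ≤ Real.pi * w ^ 2 / 2 := by positivity
          nlinarith [mul_le_mul_of_nonneg_left h5 h6]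
        unfold gw
        nlinarith [mul_le_mul_of_nonneg_left h4 hw.le]
      have h4 : gw w β * (‖WSg φ a P β - WIg φ a P β‖ * (‖SX XA GA β‖ * ‖SX XB GB β‖)) ≤
          (E0 * (w * Real.exp (-(Real.pi * w ^ 2 / 2) * β ^ 2))) *
            ((6 * ((a : ℝ) * P)) * ((#XA : ℝ) * #XB)) := by
        refine mul_le_mul h3 (mul_le_mul h1 h2 (by positivity) (by positivity)) (by positivity)
          (by positivity)
      have h5 : (E0 * (w * Real.exp (-(Real.pi * w ^ 2 / 2) * β ^ 2))) *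
            ((6 * ((a : ℝ) * P)) * ((#XA : ℝ) * #XB)) =
          K * (w * Real.exp (-(Real.pi * w ^ 2 / 2) * β ^ 2)) := by rw [hK]; ring
      have h6 : 0 ≤ η * (lam / 2) * (gw w β * ‖SX XA GA β‖ ^ 2) +
        η * (1 / (2 * lam)) * (gw w β * ‖SX XB GB β‖ ^ 2) := by positivity
      linarith
  -- integrate
  have hI1 : Integrable (fun β : ℝ => η * (lam / 2) * (gw w β * ‖SX XA GA β‖ ^ 2)) :=
    (int_sq' XA GA hw).const_mul _
  have hI2 : Integrable (fun β : ℝ => η * (1 / (2 * lam)) * (gw w β * ‖SX XB GB β‖ ^ 2)) :=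
    (int_sq' XB GB hw).const_mul _
  have hI3 : Integrable (fun β : ℝ => K * (w * Real.exp (-(Real.pi * w ^ 2 / 2) * β ^ 2))) :=
    hexp_int.const_mul _
  have hfin := norm_integral_le_of_norm_le ((hI1.add hI2).add hI3)
    (ae_of_all _ fun β => hbound β)
  rw [← hid, Complex.norm_real, Real.norm_eq_abs] at hfin
  refine hfin.trans ?_
  rw [integral_add' (hI1.add hI2) hI3, integral_add' hI1 hI2, integral_const_mul,
    integral_const_mul, integral_const_mul, integral_const_mul, integral_gaussian]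
  have h1 : η * (lam / 2) * (∫ β : ℝ, gw w β * ‖SX XA GA β‖ ^ 2) +
      η * (1 / (2 * lam)) * (∫ β : ℝ, gw w β * ‖SX XB GB β‖ ^ 2) ≤ η * Real.sqrt (MA * MB) := by
    have h2 : η * (lam / 2) * (∫ β : ℝ, gw w β * ‖SX XA GA β‖ ^ 2) ≤ η * (lam / 2) * MA :=
      mul_le_mul_of_nonneg_left hIA (by positivity)
    have h3 : η * (1 / (2 * lam)) * (∫ β : ℝ, gw w β * ‖SX XB GB β‖ ^ 2) ≤
        η * (1 / (2 * lam)) * MB := mul_le_mul_of_nonneg_left hIB (by positivity)
    have h4 : η * (lam / 2) * MA + η * (1 / (2 * lam)) * MB = η * Real.sqrt (MA * MB) := by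
      rw [Real.sqrt_mul (by linarith : 0 ≤ MA), hlam]
      have e1 : MA = Real.sqrt MA * Real.sqrt MA := (Real.mul_self_sqrt (by linarith)).symm
      have e2 : MB = Real.sqrt MB * Real.sqrt MB := (Real.mul_self_sqrt (by linarith)).symm
      have h5 : Real.sqrt MB / Real.sqrt MA / 2 * MA = Real.sqrt MA * Real.sqrt MB / 2 := by
        nth_rewrite 2 [e1]
        field_simp
      have h6 : 1 / (2 * (Real.sqrt MB / Real.sqrt MA)) * MB =
          Real.sqrt MA * Real.sqrt MB / 2 := by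
        nth_rewrite 2 [e2]
        field_simp
      calc _ = η * (Real.sqrt MB / Real.sqrt MA / 2 * MA +
            1 / (2 * (Real.sqrt MB / Real.sqrt MA)) * MB) := by ring
        _ = _ := by rw [h5, h6]; ring
    linarith
  have h2 : K * (w * Real.sqrt (Real.pi / (Real.pi * w ^ 2 / 2))) ≤
      12 * ((#XA : ℝ) * #XB * (a * P)) * E0 := by
    have h3 : Real.pi / (Real.pi * w ^ 2 / 2) = 2 * (1 / w) ^ 2 := by
      have := Real.pi_pos.ne'
      field_simp
    have h4 : w * Real.sqrt (Real.pi / (Real.pi * w ^ 2 / 2)) ≤ 2 := by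
      rw [h3, Real.sqrt_mul (by norm_num), Real.sqrt_sq (by positivity)]
      have h5 : Real.sqrt 2 ≤ 2 := by
        rw [Real.sqrt_le_left (by norm_num)]; norm_num
      have h6 : w * (Real.sqrt 2 * (1 / w)) = Real.sqrt 2 := by field_simp
      linarith
    calc K * (w * Real.sqrt (Real.pi / (Real.pi * w ^ 2 / 2))) ≤ K * 2 :=
          mul_le_mul_of_nonneg_left h4 hK0
      _ = _ := by rw [hK]; ring
  linarith

end Pool.Agent.L7h37.EX
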