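import Pool.Agent.L7h27.EX.Stm
import Pool.Agent.N701.S.VD

/-! Project EX of helper27: exponential sums with the phase `β n ^ m`. -/

set_option autoImplicit false

namespace Pool.Agent.L7h37.EX

open Finset
open Pool.Agent.Helper602.MK (ee)
open Pool.Agent.H376R2.MR (er)
open Pool.Agent.L7h27.EX

/-- the coefficients of the derivatives of `x ^ m` -/
noncomputable def cf (m : ℝ) (j : ℕ) : ℝ := ∏ i ∈ range j, (m - (i : ℝ))

theorem cf_succ (m : ℝ) (j : ℕ) : cf m (j + 1) = cf m j * (m - (j : ℝ)) := by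
  unfold cf
  rw [prod_range_succ]

theorem cf_ne {m : ℝ} (hm : ∀ n : ℕ, (n : ℝ) ≠ m) (j : ℕ) : cf m j ≠ 0 := by
  unfold cf
  refine prod_ne_zero_iff.2 fun i _ => ?_
  intro h
  exact hm i (by linarith)

theorem s_ESX : S_ESX := by
  intro m hm1 hmn
  set q := ⌈m⌉₊ + 3 with hq
  have hqm : m + 3 ≤ (q : ℝ) := by
    rw [hq]
    push_cast
    linarith [Nat.le_ceil m]
  obtain ⟨C, hC, hvd⟩ := Pool.Agent.N701.S.vd q
  set cc : ℝ := |cf m (q + 1)| with hcc
  have hccp : 0 < cc := abs_pos.2 (cf_ne hmn _)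
  set p : ℝ := (q : ℝ) + 1 - m with hp
  have hp0 : 0 < p := by rw [hp]; linarith
  set lo : ℝ := (1 / 3 : ℝ) ^ p with hlo
  have hlo0 : 0 < lo := Real.rpow_pos_of_pos (by norm_num) _
  set c0 : ℝ := min 1 (cc * lo) with hc0
  have hc0p : 0 < c0 := lt_min one_pos (mul_pos hccp hlo0)
  set C0 : ℝ := max 1 cc with hC0
  have hC01 : 1 ≤ C0 := le_max_left _ _
  refine ⟨1 / (((q : ℝ) + 2) * 2 ^ q), C * (C0 / c0), by positivity, by positivity, ?_⟩
  intro N a B θ hN ha haB hB hZ1 hθ2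
  have hN0 : (0 : ℝ) < N := by exact_mod_cast (show 0 < N by omega)
  have hN4 : (4 : ℝ) ≤ N := by exact_mod_cast hN
  have hsq0 : 0 < √(N : ℝ) := Real.sqrt_pos.2 hN0
  have hNm : 0 < (N : ℝ) ^ m := Real.rpow_pos_of_pos hN0 _
  have hθ0 : θ ≠ 0 := by
    rintro rfl
    rw [abs_zero, mul_zero, zero_mul] at hZ1
    linarith
  set s : ℝ := θ / |θ| with hs
  have hs1 : |s| = 1 := by rw [hs, abs_div, abs_abs, div_self (abs_pos.2 hθ0).ne']
  have hss : s * s = 1 := by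
    have := abs_mul_abs_self s
    rw [hs1] at this; linarith
  have hsθ : |θ| * s = θ := by rw [hs]; field_simp
  let φ : ℕ → ℝ → ℝ := fun j x => s * (cf m j * ((N : ℝ) ^ (-m) * x ^ (m - (j : ℝ))))
  set Z : ℝ := 2 * Real.pi * |θ| * (N : ℝ) ^ m with hZ
  have hu : ((a : ℝ) + 1) + ((B - a : ℕ) : ℝ) = B + 1 := by
    rw [Nat.cast_sub haB]; ring
  have hxN : ∀ x ∈ Set.Icc ((a : ℝ) + 1) ((a : ℝ) + 1 + ((B - a : ℕ) : ℝ)), (N : ℝ) ≤ x ∧
      x ≤ 3 * N := by
    intro x hx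
    rw [hu] at hx
    have h1 : (N : ℝ) ≤ a := by exact_mod_cast ha
    have h2 : (B : ℝ) + 1 ≤ 3 * N := by exact_mod_cast hB
    exact ⟨by linarith [hx.1], by linarith [hx.2]⟩
  have hval : ∀ x : ℝ, (N : ℝ) ≤ x → (N : ℝ) ^ (-m) * x ^ (m - ((q + 1 : ℕ) : ℝ)) *
      (N : ℝ) ^ (q + 1) = (N / x) ^ p := by
    intro x hx
    have hx0 : 0 < x := lt_of_lt_of_le hN0 hx
    rw [Real.div_rpow hN0.le hx0.le]
    have e1 : x ^ (m - ((q + 1 : ℕ) : ℝ)) = (x ^ p)⁻¹ := by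
      rw [← Real.rpow_neg hx0.le]
      congr 1
      rw [hp]; push_cast; ring
    have e2 : (N : ℝ) ^ (-m) * (N : ℝ) ^ (q + 1) = (N : ℝ) ^ p := by
      rw [← Real.rpow_natCast, ← Real.rpow_add hN0]
      congr 1
      rw [hp]; push_cast; ring
    rw [e1, ← e2]
    field_simp
  have hsgn : ∀ c : ℝ, c ≠ 0 → abs (c / |c|) = 1 ∧ c / |c| * c = |c| := by
    intro c hc
    refine ⟨by rw [abs_div, abs_abs, div_self (abs_pos.2 hc).ne'], ?_⟩
    have h1 : c * c = |c| * |c| := (abs_mul_abs_self c).symm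
    rw [div_mul_eq_mul_div, h1, mul_div_assoc, div_self (abs_pos.2 hc).ne', mul_one]
  have hmain := hvd N (B - a) ((a : ℝ) + 1) Z c0 C0 (s * (cf m (q + 1) / |cf m (q + 1)|))
    (s * (cf m (q + 2) / |cf m (q + 2)|)) φ (by omega) (by
      have h1 : (N : ℝ) ≤ a := by exact_mod_cast ha
      linarith) (by
      rw [hu]
      exact_mod_cast hB) hc0p (min_le_left _ _) hC01
    (by rw [abs_mul, hs1, (hsgn _ (cf_ne hmn _)).1, mul_one])
    (by rw [abs_mul, hs1, (hsgn _ (cf_ne hmn _)).1, mul_one])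
    (by
      intro j _ x hx
      have hx0 : 0 < x := lt_of_lt_of_le hN0 (hxN x hx).1
      have h1 := (((Real.hasDerivAt_rpow_const (p := m - (j : ℝ)) (Or.inl hx0.ne')).const_mul
        ((N : ℝ) ^ (-m))).const_mul (cf m j)).const_mul s
      refine h1.congr_deriv ?_
      simp only [φ]
      rw [cf_succ]
      have e1 : m - ((j + 1 : ℕ) : ℝ) = m - (j : ℝ) - 1 := by push_cast; ring
      rw [e1]
      ring)
    (by
      intro x hx
      obtain ⟨hx1, hx2⟩ := hxN x hx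
      have hx0 : 0 < x := lt_of_lt_of_le hN0 hx1
      have e1 : s * (cf m (q + 1) / |cf m (q + 1)|) * φ (q + 1) x * (N : ℝ) ^ (q + 1) =
          cc * (N / x) ^ p := by
        have h1 := (hsgn _ (cf_ne hmn (q + 1))).2
        calc s * (cf m (q + 1) / |cf m (q + 1)|) * φ (q + 1) x * (N : ℝ) ^ (q + 1)
            = (s * s) * (cf m (q + 1) / |cf m (q + 1)| * cf m (q + 1)) *
              ((N : ℝ) ^ (-m) * x ^ (m - ((q + 1 : ℕ) : ℝ)) * (N : ℝ) ^ (q + 1)) := by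
              simp only [φ]; ring
          _ = cc * (N / x) ^ p := by rw [hss, h1, hval x hx1, one_mul]
      have h2 : (N : ℝ) / x ≤ 1 := (div_le_one hx0).2 hx1
      have h3 : (1 / 3 : ℝ) ≤ N / x := by
        rw [div_le_div_iff₀ (by norm_num) hx0]; linarith
      have h4 : lo ≤ (N / x) ^ p := Real.rpow_le_rpow (by norm_num) h3 hp0.le
      have h5 : (N / x) ^ p ≤ 1 := Real.rpow_le_one (by positivity) h2 hp0.le
      refine ⟨?_, ?_, ?_⟩
      · rw [e1]
        exact (min_le_right _ _).trans (mul_le_mul_of_nonneg_left h4 hccp.le)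
      · rw [e1]
        refine le_trans ?_ (le_max_right 1 cc)
        calc cc * (N / x) ^ p ≤ cc * 1 := mul_le_mul_of_nonneg_left h5 hccp.le
          _ = cc := mul_one _
      · have h1 := (hsgn _ (cf_ne hmn (q + 2))).2
        have e2 : s * (cf m (q + 2) / |cf m (q + 2)|) * φ (q + 2) x =
            |cf m (q + 2)| * ((N : ℝ) ^ (-m) * x ^ (m - ((q + 2 : ℕ) : ℝ))) := by
          calc s * (cf m (q + 2) / |cf m (q + 2)|) * φ (q + 2) x
              = (s * s) * (cf m (q + 2) / |cf m (q + 2)| * cf m (q + 2)) *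
                ((N : ℝ) ^ (-m) * x ^ (m - ((q + 2 : ℕ) : ℝ))) := by
                simp only [φ]; ring
            _ = _ := by rw [hss, h1, one_mul]
        rw [e2]
        positivity)
  have hZ2 : Z ≤ (N : ℝ) ^ q := by
    have h8 : (8 : ℝ) ≤ (N : ℝ) ^ (3 / 2 : ℝ) := by
      have h1 : (4 : ℝ) ^ (3 / 2 : ℝ) = 8 := by
        rw [show (4 : ℝ) = 2 ^ (2 : ℝ) by norm_num, ← Real.rpow_mul (by norm_num)]
        norm_num
      rw [← h1]
      exact Real.rpow_le_rpow (by norm_num) hN4 (by norm_num)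
    have h2 : 2 * Real.pi * |θ| ≤ 8 * N := by
      have h3 : 2 * Real.pi ≤ 8 := by linarith [Real.pi_lt_four]
      exact mul_le_mul h3 hθ2 (abs_nonneg _) (by norm_num)
    calc Z ≤ 8 * N * (N : ℝ) ^ m := mul_le_mul_of_nonneg_right h2 hNm.le
      _ ≤ (N : ℝ) ^ (3 / 2 : ℝ) * N * (N : ℝ) ^ m :=
          mul_le_mul_of_nonneg_right (mul_le_mul_of_nonneg_right h8 hN0.le) hNm.le
      _ = (N : ℝ) ^ (3 / 2 + 1 + m) := by
          rw [Real.rpow_add hN0, Real.rpow_add hN0, Real.rpow_one]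
      _ ≤ (N : ℝ) ^ (q : ℝ) := Real.rpow_le_rpow_of_exponent_le (by linarith) (by linarith)
      _ = (N : ℝ) ^ q := Real.rpow_natCast _ _
  have hfin := hmain.2 (by omega) hZ1 hZ2
  refine le_trans (le_of_eq ?_) hfin
  congr 1
  have hI : Ioc a B = Ico (a + 1) (B + 1) := by
    ext n
    rw [mem_Ioc, mem_Ico]
    omega
  rw [hI, Finset.sum_Ico_eq_sum_range]
  have hr : B + 1 - (a + 1) = B - a := by omega
  rw [hr]
  refine sum_congr rfl fun n _ => ?_
  unfold ee er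
  congr 1
  have hx0 : (0 : ℝ) < (a : ℝ) + 1 + n := by positivity
  have e3 : Z * φ 0 ((a : ℝ) + 1 + n) = 2 * Real.pi * (θ * ((a + 1 + n : ℕ) : ℝ) ^ m) := by
    simp only [φ, cf, range_zero, prod_empty, one_mul, Nat.cast_zero, sub_zero]
    have e4 : ((a : ℝ) + 1 + n) ^ m = ((a + 1 + n : ℕ) : ℝ) ^ m := by
      push_cast; rfl
    have e5 : (N : ℝ) ^ m * (N : ℝ) ^ (-m) = 1 := by
      rw [← Real.rpow_add hN0]; norm_num
    rw [e4, hZ]
    calc 2 * Real.pi * |θ| * (N : ℝ) ^ m * (s * ((N : ℝ) ^ (-m) * ((a + 1 + n : ℕ) : ℝ) ^ m))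
        = 2 * Real.pi * ((|θ| * s) * ((a + 1 + n : ℕ) : ℝ) ^ m) *
          ((N : ℝ) ^ m * (N : ℝ) ^ (-m)) := by ring
      _ = _ := by rw [hsθ, e5, mul_one]
  rw [e3]
  push_cast
  ring

end Pool.Agent.L7h37.EX
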