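import Pool.Agent.L7h27.EX.Stm
import Pool.Agent.Helper602.MK.J5b

/-! Project EX of helper27: the Weyl sums on a long interval of frequencies. -/

set_option autoImplicit false

namespace Pool.Agent.L7h37.EX

open Finset Filter
open Pool.Agent.Helper602.MK (ee)
open Pool.Agent.L7h27.EX

theorem s_SUPX (hes : S_ESX) (hvan : S_VANX) : S_SUPX := by
  intro m hm hmn
  obtain ⟨δ, C, hδ, hC, hes⟩ := hes m hm hmn
  set σ : ℝ := min (1 / 8) (δ / 2) with hσ
  have hσ0 : 0 < σ := lt_min (by norm_num) (by linarith)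
  have hσ8 : σ ≤ 1 / 8 := min_le_left _ _
  have hσδ : σ ≤ δ / 2 := min_le_right _ _
  refine ⟨σ, hσ0, by linarith, ?_⟩
  intro a ha
  obtain ⟨C', hC', hvan⟩ := hvan m hm a ha
  have hlarge : ∀ᶠ P : ℕ in atTop, 4 * a * C + C' ≤ (P : ℝ) ^ σ :=
    ((tendsto_rpow_atTop hσ0).comp tendsto_natCast_atTop_atTop).eventually_ge_atTop _
  filter_upwards [hvan, hlarge, eventually_ge_atTop 4] with P hP hP2 hP4 β hβ
  obtain ⟨hv1, hv2⟩ := hP β
  have ha1 : (1 : ℝ) ≤ a := by exact_mod_cast ha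
  have hP4' : (4 : ℝ) ≤ P := by exact_mod_cast hP4
  have hP0 : (0 : ℝ) < P := by linarith
  have hP1 : (1 : ℝ) ≤ P := by linarith
  -- the final bound
  have hfin : ∀ y : ℝ, y ≤ (4 * a * C + C') * (P : ℝ) ^ (1 - 2 * σ) → y ≤ (P : ℝ) ^ (1 - σ) := by
    intro y hy
    refine hy.trans ?_
    calc (4 * a * C + C') * (P : ℝ) ^ (1 - 2 * σ) ≤ (P : ℝ) ^ σ * (P : ℝ) ^ (1 - 2 * σ) :=
          mul_le_mul_of_nonneg_right hP2 (by positivity)
      _ = (P : ℝ) ^ (1 - σ) := by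
          rw [← Real.rpow_add hP0]
          congr 1
          ring
  have hmono : ∀ x : ℝ, x ≤ 1 - 2 * σ → (P : ℝ) ^ x ≤ (P : ℝ) ^ (1 - 2 * σ) := fun x hx =>
    Real.rpow_le_rpow_of_exponent_le hP1 hx
  apply hfin
  rcases le_or_gt |β| ((P : ℝ) ^ (3 / 4 - m)) with h | h
  · -- small frequencies
    have e1 : C' * |β| * (P : ℝ) ^ m ≤ C' * (P : ℝ) ^ (1 - 2 * σ) := by
      calc C' * |β| * (P : ℝ) ^ m ≤ C' * (P : ℝ) ^ (3 / 4 - m) * (P : ℝ) ^ m :=
            mul_le_mul_of_nonneg_right (mul_le_mul_of_nonneg_left h hC'.le) (by positivity)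
        _ = C' * (P : ℝ) ^ (3 / 4 : ℝ) := by
            rw [mul_assoc, ← Real.rpow_add hP0]
            congr 2
            ring
        _ ≤ C' * (P : ℝ) ^ (1 - 2 * σ) :=
            mul_le_mul_of_nonneg_left (hmono _ (by linarith)) hC'.le
    have e2 : 0 ≤ 4 * a * C * (P : ℝ) ^ (1 - 2 * σ) := by positivity
    calc _ ≤ C' * |β| * (P : ℝ) ^ m := hv1
      _ ≤ C' * (P : ℝ) ^ (1 - 2 * σ) := e1
      _ ≤ (4 * a * C + C') * (P : ℝ) ^ (1 - 2 * σ) := by rw [add_mul]; linarith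
  · -- large frequencies
    have hβ0 : 0 < |β| := lt_of_le_of_lt (by positivity) h
    -- the sum
    have hblock : ∀ N : ℕ, a * P ≤ N → N ≤ 2 * (a * P) →
        ‖∑ n ∈ Ioc N (2 * N), ee (β * (n : ℝ) ^ m)‖ ≤ C * (2 * a * (P : ℝ) ^ (1 - 2 * σ)) := by
      intro N hN1 hN2
      have haP : P ≤ a * P := Nat.le_mul_of_pos_left _ (by omega)
      have hN4 : 4 ≤ N := by omega
      have hN1' : (a : ℝ) * P ≤ N := by exact_mod_cast hN1
      have hN2' : (N : ℝ) ≤ 2 * (a * P) := by exact_mod_cast hN2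
      have hPN : (P : ℝ) ≤ N := by
        calc (P : ℝ) = 1 * P := (one_mul _).symm
          _ ≤ a * P := mul_le_mul_of_nonneg_right ha1 hP0.le
          _ ≤ N := hN1'
      have hN0 : (0 : ℝ) < N := by linarith
      have hN1r : (1 : ℝ) ≤ N := by linarith
      have c1 : √(N : ℝ) ≤ 2 * Real.pi * |β| * (N : ℝ) ^ m := by
        have d1 : (N : ℝ) ^ (3 / 4 - m) ≤ |β| := by
          refine le_trans ?_ h.le
          exact Real.rpow_le_rpow_of_nonpos hP0 hPN (by linarith)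
        have d2 : (N : ℝ) ^ (3 / 4 : ℝ) ≤ |β| * (N : ℝ) ^ m := by
          calc (N : ℝ) ^ (3 / 4 : ℝ) = (N : ℝ) ^ (3 / 4 - m) * (N : ℝ) ^ m := by
                rw [← Real.rpow_add hN0]
                congr 1
                ring
            _ ≤ |β| * (N : ℝ) ^ m := mul_le_mul_of_nonneg_right d1 (by positivity)
        have d3 : √(N : ℝ) ≤ (N : ℝ) ^ (3 / 4 : ℝ) := by
          rw [Real.sqrt_eq_rpow]
          exact Real.rpow_le_rpow_of_exponent_le hN1r (by norm_num)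
        have d4 : 1 ≤ 2 * Real.pi := by linarith [Real.pi_gt_three]
        calc √(N : ℝ) ≤ 1 * (|β| * (N : ℝ) ^ m) := by rw [one_mul]; exact d3.trans d2
          _ ≤ 2 * Real.pi * (|β| * (N : ℝ) ^ m) :=
              mul_le_mul_of_nonneg_right d4 (by positivity)
          _ = 2 * Real.pi * |β| * (N : ℝ) ^ m := by ring
      have c2 : |β| ≤ N := by
        refine hβ.trans (le_trans ?_ hPN)
        calc (P : ℝ) ^ σ ≤ (P : ℝ) ^ (1 : ℝ) :=
              Real.rpow_le_rpow_of_exponent_le hP1 (by linarith)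
          _ = P := Real.rpow_one _
      refine (hes N N (2 * N) β hN4 le_rfl (by omega) (by omega) c1 c2).trans ?_
      refine mul_le_mul_of_nonneg_left ?_ hC.le
      calc (N : ℝ) ^ (1 - δ) ≤ (N : ℝ) ^ (1 - 2 * σ) :=
            Real.rpow_le_rpow_of_exponent_le hN1r (by linarith)
        _ ≤ (2 * a * (P : ℝ)) ^ (1 - 2 * σ) :=
            Real.rpow_le_rpow hN0.le (by linarith) (by linarith)
        _ = (2 * a : ℝ) ^ (1 - 2 * σ) * (P : ℝ) ^ (1 - 2 * σ) :=
            Real.mul_rpow (by positivity) hP0.le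
        _ ≤ (2 * a : ℝ) ^ (1 : ℝ) * (P : ℝ) ^ (1 - 2 * σ) :=
            mul_le_mul_of_nonneg_right
              (Real.rpow_le_rpow_of_exponent_le (by linarith) (by linarith)) (by positivity)
        _ = 2 * a * (P : ℝ) ^ (1 - 2 * σ) := by rw [Real.rpow_one]
    have hWS : ‖WSg (fun u => u ^ m) a P β‖ ≤ 4 * a * C * (P : ℝ) ^ (1 - 2 * σ) := by
      have e1 : WSg (fun u => u ^ m) a P β =
          ∑ n ∈ Ioc (a * P) (2 * (a * P)), ee (β * (n : ℝ) ^ m) +
          ∑ n ∈ Ioc (2 * (a * P)) (2 * (2 * (a * P))), ee (β * (n : ℝ) ^ m) := by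
        unfold WSg
        rw [← sum_union]
        · refine sum_congr ?_ fun _ _ => rfl
          ext n
          simp only [mem_union, mem_Ioc]
          omega
        · rw [Finset.disjoint_left]
          intro n h1 h2
          rw [mem_Ioc] at h1 h2
          omega
      rw [e1]
      refine (norm_add_le _ _).trans ?_
      have h1 := hblock (a * P) le_rfl (by omega)
      have h2 := hblock (2 * (a * P)) (by omega) le_rfl
      linarith
    have hWI : ‖WIg (fun u => u ^ m) a P β‖ ≤ C' * (P : ℝ) ^ (1 - 2 * σ) := by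
      have e1 : ‖WIg (fun u => u ^ m) a P β‖ ≤ C' / (P : ℝ) ^ (m - 1) / |β| := by
        rw [le_div_iff₀ hβ0, mul_comm]
        exact hv2
      refine e1.trans ?_
      have hpm : 0 < (P : ℝ) ^ (m - 1) := Real.rpow_pos_of_pos hP0 _
      rw [div_le_iff₀ hβ0, div_le_iff₀ hpm]
      have e2 : (1 : ℝ) ≤ (P : ℝ) ^ (1 - 2 * σ) * |β| * (P : ℝ) ^ (m - 1) := by
        calc (1 : ℝ) ≤ (P : ℝ) ^ (3 / 4 - 2 * σ) := Real.one_le_rpow hP1 (by linarith)
          _ = (P : ℝ) ^ (1 - 2 * σ) * (P : ℝ) ^ (3 / 4 - m) * (P : ℝ) ^ (m - 1) := by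
              rw [← Real.rpow_add hP0, ← Real.rpow_add hP0]
              congr 1
              ring
          _ ≤ (P : ℝ) ^ (1 - 2 * σ) * |β| * (P : ℝ) ^ (m - 1) :=
              mul_le_mul_of_nonneg_right (mul_le_mul_of_nonneg_left h.le (by positivity)) hpm.le
      calc C' = C' * 1 := (mul_one _).symm
        _ ≤ C' * ((P : ℝ) ^ (1 - 2 * σ) * |β| * (P : ℝ) ^ (m - 1)) :=
            mul_le_mul_of_nonneg_left e2 hC'.le
        _ = C' * (P : ℝ) ^ (1 - 2 * σ) * |β| * (P : ℝ) ^ (m - 1) := by ring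
    calc _ ≤ ‖WSg (fun u => u ^ m) a P β‖ + ‖WIg (fun u => u ^ m) a P β‖ := norm_sub_le _ _
      _ ≤ 4 * a * C * (P : ℝ) ^ (1 - 2 * σ) + C' * (P : ℝ) ^ (1 - 2 * σ) := add_le_add hWS hWI
      _ = (4 * a * C + C') * (P : ℝ) ^ (1 - 2 * σ) := by ring

end Pool.Agent.L7h37.EX
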